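import Pool.Agent.TDV.Stmts

/-!
# Squad TDV, module KSP: the characterization and the measurability of `K`
-/

set_option autoImplicit false

namespace Pool.Agent.TDV.H27

open Pool.Agent.Helper25TD

theorem pre_K (y : ℕ → Bool) (n : ℕ) : pre (K y) n = Kh y n := by
  induction n with
  | zero => rfl
  | succ n ih =>
    rw [pre_succ, ih]
    rfl

theorem K_iff (y : ℕ → Bool) (n : ℕ) : K y n = true ↔ Ask (pre (K y) n) y := by
  classical
  rw [pre_K]
  unfold K
  exact decide_eq_true_iff

theorem K_zero (y : ℕ → Bool) : K y 0 = false := by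
  have h : ¬ (K y 0 = true) := by
    rw [K_iff]
    rintro ⟨N, hN⟩
    have h1 : QU (pre (K y) 0) (pre y N) = Part.none := by
      unfold QU
      exact if_pos rfl
    rw [h1] at hN
    exact Part.notMem_none _ hN
  cases h' : K y 0 with
  | false => rfl
  | true => exact absurd h' h

theorem length_pre' (x : ℕ → Bool) (n : ℕ) : (pre x n).length = n := by
  unfold pre
  rw [List.length_map, List.length_range]

theorem getD_pre (x : ℕ → Bool) {n i : ℕ} (h : i < n) : (pre x n).getD i false = x i := by
  unfold pre
  rw [List.getD_eq_getElem _ _ (by rw [List.length_map, List.length_range]; exact h)]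
  rw [List.getElem_map, List.getElem_range]

theorem colp_pre (hV : VlmStmt) (x : ℕ → Bool) (e m : ℕ) :
    colp (pre x (2 ^ e * (2 * m + 1))) = pre (fun i => x (2 ^ e * (2 * i + 1))) m := by
  have hv := hV.1 e m
  unfold colp
  rw [length_pre', hv.1, hv.2]
  change List.map _ (List.range m) = List.map _ (List.range m)
  apply List.map_congr_left
  intro i hi
  rw [List.mem_range] at hi
  apply getD_pre
  exact Nat.mul_lt_mul_of_pos_left (by omega) (by positivity)

theorem K_col (hV : VlmStmt) (y : ℕ → Bool) (e m : ℕ) :
    K y (2 ^ e * (2 * m + 1)) = true ↔ ∃ N, 1 ∈ (Denumerable.ofNat Nat.Partrec.Code e).eval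
      (Encodable.encode (pre (fun i => K y (2 ^ e * (2 * i + 1))) m, pre y N)) := by
  rw [K_iff]
  have hne : ¬ ((pre (K y) (2 ^ e * (2 * m + 1))).length = 0) := by
    rw [length_pre']
    have h1 : 0 < 2 ^ e * (2 * m + 1) := by positivity
    omega
  unfold Ask
  refine exists_congr fun N => ?_
  unfold QU
  rw [if_neg hne, colp_pre hV, length_pre', (hV.1 e m).1]

theorem meas_pre (N : ℕ) (P : List Bool → Prop) :
    MeasurableSet {y : ℕ → Bool | P (pre y N)} := by
  have h1 : Measurable fun y : ℕ → Bool => fun i : Fin N => y i :=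
    measurable_pi_iff.2 fun i => measurable_pi_apply _
  have h2 : MeasurableSet {g : Fin N → Bool | P (List.ofFn g)} := (Set.toFinite _).measurableSet
  have h3 : {y : ℕ → Bool | P (pre y N)} =
      (fun y : ℕ → Bool => fun i : Fin N => y i) ⁻¹' {g : Fin N → Bool | P (List.ofFn g)} := by
    ext y
    have h4 : pre y N = List.ofFn (fun i : Fin N => y i) := by
      apply List.ext_getElem
      · rw [length_pre', List.length_ofFn]
      · intro i h5 h6
        rw [List.getElem_ofFn]
        unfold pre
        rw [List.getElem_map, List.getElem_range]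
    change P (pre y N) ↔ P (List.ofFn fun i : Fin N => y i)
    rw [h4]
  rw [h3]
  exact h1 h2

theorem meas_ask (p : List Bool) : MeasurableSet {y : ℕ → Bool | Ask p y} := by
  have h1 : {y : ℕ → Bool | Ask p y} = ⋃ N, {y : ℕ → Bool | 1 ∈ QU p (pre y N)} := by
    ext y
    simp only [Set.mem_iUnion]
    rfl
  rw [h1]
  exact MeasurableSet.iUnion fun N => meas_pre N fun r => 1 ∈ QU p r

theorem meas_Kh (n : ℕ) : ∀ P : List Bool → Prop, MeasurableSet {y : ℕ → Bool | P (Kh y n)} := by
  classical
  induction n with
  | zero =>
    intro P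
    exact MeasurableSet.const (P [])
  | succ n ih =>
    intro P
    have h1 : {y : ℕ → Bool | P (Kh y (n + 1))} =
        ⋃ p : List Bool, ({y : ℕ → Bool | Kh y n = p} ∩
          (({y : ℕ → Bool | Ask p y} ∩ {y : ℕ → Bool | P (p ++ [true])}) ∪
            ({y : ℕ → Bool | Ask p y}ᶜ ∩ {y : ℕ → Bool | P (p ++ [false])}))) := by
      ext y
      rw [Set.mem_iUnion]
      have h2 : Kh y (n + 1) = Kh y n ++ [decide (Ask (Kh y n) y)] := rfl
      constructor
      · intro h
        refine ⟨Kh y n, rfl, ?_⟩
        have h' : P (Kh y (n + 1)) := h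
        rw [h2] at h'
        by_cases h3 : Ask (Kh y n) y
        · left
          refine ⟨h3, ?_⟩
          rw [decide_eq_true h3] at h'
          exact h'
        · right
          refine ⟨h3, ?_⟩
          rw [decide_eq_false h3] at h'
          exact h'
      · rintro ⟨p, hp, h⟩
        have hp' : Kh y n = p := hp
        change P (Kh y (n + 1))
        rw [h2, hp']
        rcases h with ⟨h3, h4⟩ | ⟨h3, h4⟩
        · have h3' : Ask p y := h3
          rw [decide_eq_true h3']
          exact h4
        · have h3' : ¬ Ask p y := h3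
          rw [decide_eq_false h3']
          exact h4
    rw [h1]
    refine MeasurableSet.iUnion fun p => ?_
    refine (ih fun q => q = p).inter (MeasurableSet.union ?_ ?_)
    · exact (meas_ask p).inter (MeasurableSet.const _)
    · exact (meas_ask p).compl.inter (MeasurableSet.const _)

theorem measurable_K : Measurable K := by
  refine measurable_pi_iff.2 fun n => ?_
  apply measurable_to_bool
  have h1 : (fun y => K y n) ⁻¹' {true} = ⋃ p : List Bool,
      ({y : ℕ → Bool | Kh y n = p} ∩ {y : ℕ → Bool | Ask p y}) := by
    ext y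
    rw [Set.mem_iUnion]
    constructor
    · intro h
      have h' : K y n = true := h
      rw [K_iff, pre_K] at h'
      exact ⟨Kh y n, rfl, h'⟩
    · rintro ⟨p, hp, h⟩
      have hp' : Kh y n = p := hp
      have h' : Ask p y := h
      change K y n = true
      rw [K_iff, pre_K, hp']
      exact h'
  rw [h1]
  exact MeasurableSet.iUnion fun p => (meas_Kh n fun q => q = p).inter (meas_ask p)

theorem ksp (hV : VlmStmt) : KspStmt :=
  ⟨pre_K, K_iff, K_zero, K_col hV, measurable_K⟩

end Pool.Agent.TDV.H27
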